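import Pool.Agent.Helper617.EX.Mod6

/-!
There is a model of `RCA₀` in which `EXT(ω*)` holds and arithmetical comprehension fails. Hence
`RCA₀ + EXT(ω*)` does not prove `ACA₀`.

Outline. Let `col` be a colouring of the numbers, `T` a list of colours in decreasing order and
`Λ` a list of linear orders of the numbers with labels. A finite set `Y` is large of level `n`
for `T` and `Λ` (file `Large`) if all the colours of its convex hull are at most the first colour
of `T` and `Y` contains a set of level `n - 1` after each of the following moves: the first colour
is removed from `T`; a set of at most `min Y` points is given (answer: a subset in one gap); the
answer begins after a point whose colour is the first colour of `T`; a set `S` descending in an
order of `Λ` with label `e` is given (answer: a subset without points of `S` in its convex hull,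
large for the list `T` without its first `e + 1` colours); an order `P` and a label `t` are given
(answer: either a descending set of `P` with points between any two points of a subset which is
large for a sublist of `T` of length `t + 1`, or a linear extension of `P` up to the end of a
subset which is large for `T` and for `Λ` with this linear extension added with the label `t`).
Existence of such sets for all `n` and some `col` (`Exist`) follows by compactness (`Comp`) from a
statement on infinite sequences of blocks, where for each order of `Λ` with label `s + 1` the
blocks carry orders of label `s` to which it reduces (`Inf`). The crucial case is the answer to
`P`: if there is no good descending set, then a rank function with ordinal values exists, and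
`P` is extended block after block (`Step`, `Lin`): the points of a new block are placed in the
classes of ordinals given by the remainders of the finitely many ranks of old points, there are
only finitely many remainders of one ordinal (`Ord`), and the rank function can be kept while
comparabilities are added; on the fibres the order is given by orders with smaller labels
(`Ext`). In a countable nonstandard model, given by codes of internal functions modulo an
ultrafilter, the game is played against all internal opponents in `ω` steps, starting with a list
of nonstandard length; in the course of the game the first colour is removed infinitely often and
a point of the first colour is passed infinitely often. The numbers below some lower bound of the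
sets obtained form a cut; with the traces of the internal sets this is a model of `RCA₀` (`Mod4`)
and of `EXT(ω*)` (`Mod5`). The numbers `c` such that the colours of unboundedly many numbers are
at least `c` form an arithmetical proper cut, so arithmetical comprehension fails (`Mod6`).
-/

namespace Pool.Agent.Results.MP_7fe518_lc.ExtOmegaStarWithoutACA

open Pool.Agent.Helper617.RM Pool.Agent.Helper617.EX

/-- **Main theorem.** There is a structure for second-order arithmetic which is a model of
`RCA₀` and of `EXT(ω*)`, and in which arithmetical comprehension fails. -/
theorem result : ∃ N : L2Structure.{0}, IsModelRCA0 N ∧ ExtOmegaStar N ∧ ¬ ArithComp N :=
  ⟨NN, isModel, ext, not_arith⟩

end Pool.Agent.Results.MP_7fe518_lc.ExtOmegaStarWithoutACA
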